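import Mathlib

/-!
There is an isometric colouring of the pairs of reals all of whose homogeneous sets are countable.
The colour of a pair at distance `d > 0` records whether `d` is positive for a second group order on
the reals, namely the lexicographic order with respect to a well-ordered Hamel basis.
-/

namespace Pool.Agent.Results.MP_a23160_lc.IsometricColoring

open Set

/-- Positivity for the lexicographic order in which the largest index dominates. -/
def Pos {ι : Type*} [LinearOrder ι] (v : ι →₀ ℚ) : Prop := ∃ i, 0 < v i ∧ ∀ j, i < j → v j = 0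

lemma pos_or_neg {ι : Type*} [LinearOrder ι] {v : ι →₀ ℚ} (hv : v ≠ 0) : Pos v ∨ Pos (-v) := by
  have hs : v.support.Nonempty := Finsupp.support_nonempty_iff.mpr hv
  have h0 : v (v.support.max' hs) ≠ 0 := Finsupp.mem_support_iff.mp (v.support.max'_mem hs)
  have h1 : ∀ j, v.support.max' hs < j → v j = 0 := by
    intro j hj
    by_contra h
    exact absurd (v.support.le_max' j (Finsupp.mem_support_iff.mpr h)) (not_le.mpr hj)
  rcases lt_or_gt_of_ne h0 with h | h
  · right
    refine ⟨v.support.max' hs, ?_, fun j hj => ?_⟩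
    · rw [Finsupp.neg_apply]; exact neg_pos.mpr h
    · rw [Finsupp.neg_apply, h1 j hj, neg_zero]
  · left
    exact ⟨v.support.max' hs, h, h1⟩

lemma not_pos_neg {ι : Type*} [LinearOrder ι] {v : ι →₀ ℚ} (hv : Pos v) : ¬ Pos (-v) := by
  rintro ⟨j, hj1, hj2⟩
  obtain ⟨i, hi1, hi2⟩ := hv
  rw [Finsupp.neg_apply] at hj1
  rcases lt_trichotomy i j with h | h | h
  · rw [hi2 j h] at hj1
    simp at hj1
  · subst h
    linarith
  · have := hj2 i h
    rw [Finsupp.neg_apply] at this
    linarith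

/-- Every uncountable set of reals contains an uncountable subset that is almost increasing or
almost decreasing for the second order. -/
lemma key {ι : Type*} [LinearOrder ι] [WellFoundedLT ι] (r : ℝ → ι →₀ ℚ)
    (hsub : ∀ x y, r (x - y) = r x - r y) (hinj : Function.Injective r)
    (X : Set ℝ) (hX : ¬ X.Countable) :
    ∃ Z ⊆ X, ¬ Z.Countable ∧ ((∀ x ∈ Z, {y ∈ Z | ¬ Pos (r (y - x))}.Countable) ∨
      (∀ x ∈ Z, {y ∈ Z | ¬ Pos (r (x - y))}.Countable)) := by
  classical
  let S : Set (WithTop ι) := {i | ∃ Y ⊆ X, ¬ Y.Countable ∧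
    ∀ x ∈ Y, ∀ y ∈ Y, ∀ j : ι, i ≤ (j : WithTop ι) → r x j = r y j}
  have hS : S.Nonempty := ⟨⊤, X, subset_rfl, hX, fun x _ y _ j hj =>
    absurd (top_le_iff.mp hj) (WithTop.coe_ne_top)⟩
  obtain ⟨i0, hi0, hmin⟩ := WellFounded.has_min (wellFounded_lt (α := WithTop ι)) S hS
  obtain ⟨Y, hYX, hY, hYc⟩ := hi0
  obtain ⟨x0, hx0⟩ : Y.Nonempty := by
    by_contra h
    rw [Set.not_nonempty_iff_eq_empty] at h
    exact hY (h ▸ countable_empty)
  -- the small sets
  have hT : ∀ β : ι, (β : WithTop ι) < i0 → {x ∈ Y | ∀ j, β < j → r x j = r x0 j}.Countable := by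
    intro β hβ
    have h1 : {x ∈ Y | ∀ j, β < j → r x j = r x0 j}
        ⊆ ⋃ q : ℚ, {x ∈ Y | (∀ j, β < j → r x j = r x0 j) ∧ r x β = q} := by
      intro x hx
      exact mem_iUnion.mpr ⟨r x β, hx.1, hx.2, rfl⟩
    refine Countable.mono h1 (countable_iUnion fun q => ?_)
    by_contra hq
    refine hmin β ⟨_, fun x hx => hYX hx.1, hq, ?_⟩ hβ
    intro x hx y hy j hj
    have hj' : β ≤ j := WithTop.coe_le_coe.mp hj
    rcases hj'.lt_or_eq with h | h
    · rw [hx.2.1 j h, hy.2.1 j h]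
    · subst h
      rw [hx.2.2, hy.2.2]
  -- comparison
  have hlt : ∀ x ∈ Y, ∀ i, 0 ≠ r (x - x0) i → (i : WithTop ι) < i0 := by
    intro x hx i hi
    by_contra h
    rw [not_lt] at h
    apply hi
    rw [hsub, Finsupp.sub_apply, hYc x hx x0 hx0 i h, sub_self]
  have hcmp : ∀ x ∈ Y, ∀ y ∈ Y, ∀ i, (∀ j, i < j → r (x - x0) j = 0) →
      ¬ (∀ j, i < j → r y j = r x0 j) → ∀ k, (∀ j, k < j → r (y - x0) j = 0) →
      0 ≠ r (y - x0) k → (r (y - x) k = r (y - x0) k ∧ ∀ j, k < j → r (y - x) j = 0) := by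
    intro x hx y hy i hxi hyi k hk hk0
    have hik : i < k := by
      by_contra h
      rw [not_lt] at h
      apply hyi
      intro j hj
      have := hk j (lt_of_le_of_lt h hj)
      rw [hsub, Finsupp.sub_apply, sub_eq_zero] at this
      exact this
    have hd : ∀ j, r (y - x) j = r (y - x0) j - r (x - x0) j := by
      intro j
      rw [hsub, hsub, hsub, Finsupp.sub_apply, Finsupp.sub_apply, Finsupp.sub_apply]
      ring
    refine ⟨?_, fun j hj => ?_⟩
    · rw [hd, hxi k hik, sub_zero]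
    · rw [hd, hk j hj, hxi j (hik.trans hj), sub_zero]
  -- splitting
  have hcover : Y ⊆ {x ∈ Y | Pos (r (x - x0))} ∪ ({x ∈ Y | Pos (r (x0 - x))} ∪ {x0}) := by
    intro x hx
    by_cases h : x = x0
    · exact Or.inr (Or.inr h)
    · have h1 : r (x - x0) ≠ 0 := by
        intro h2
        rw [hsub, sub_eq_zero] at h2
        exact h (hinj h2)
      rcases pos_or_neg h1 with h2 | h2
      · exact Or.inl ⟨hx, h2⟩
      · refine Or.inr (Or.inl ⟨hx, ?_⟩)
        have : r (x0 - x) = -r (x - x0) := by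
          rw [hsub, hsub]
          abel
        rw [this]
        exact h2
  by_cases hc : {x ∈ Y | Pos (r (x - x0))}.Countable
  · have hc2 : ¬ {x ∈ Y | Pos (r (x0 - x))}.Countable := by
      intro h
      exact hY ((hc.union (h.union (countable_singleton x0))).mono hcover)
    refine ⟨{x ∈ Y | Pos (r (x0 - x))}, fun x hx => hYX hx.1, hc2, Or.inr ?_⟩
    rintro x ⟨hx, i, hi1, hi2⟩
    have hneg : ∀ z j, r (x0 - z) j = -r (z - x0) j := by
      intro z j
      rw [hsub, hsub, Finsupp.sub_apply, Finsupp.sub_apply]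
      ring
    have hi1' : 0 ≠ r (x - x0) i := by
      intro h
      rw [hneg, ← h, neg_zero] at hi1
      exact lt_irrefl _ hi1
    have hi2' : ∀ j, i < j → r (x - x0) j = 0 := by
      intro j hj
      have := hi2 j hj
      rw [hneg, neg_eq_zero] at this
      exact this
    refine (hT i (hlt x hx i hi1')).mono ?_
    rintro y ⟨⟨hy, k, hk1, hk2⟩, hy2⟩
    refine ⟨hy, ?_⟩
    by_contra hcon
    apply hy2
    have hk1' : 0 ≠ r (y - x0) k := by
      intro h
      rw [hneg, ← h, neg_zero] at hk1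
      exact lt_irrefl _ hk1
    have hk2' : ∀ j, k < j → r (y - x0) j = 0 := by
      intro j hj
      have := hk2 j hj
      rw [hneg, neg_eq_zero] at this
      exact this
    obtain ⟨h1, h2⟩ := hcmp x hx y hy i hi2' hcon k hk2' hk1'
    have hxy : ∀ j, r (x - y) j = -r (y - x) j := by
      intro j
      rw [hsub, hsub, Finsupp.sub_apply, Finsupp.sub_apply]
      ring
    refine ⟨k, ?_, fun j hj => ?_⟩
    · rw [hxy, h1, ← hneg]
      exact hk1
    · rw [hxy, h2 j hj, neg_zero]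
  · refine ⟨{x ∈ Y | Pos (r (x - x0))}, fun x hx => hYX hx.1, hc, Or.inl ?_⟩
    rintro x ⟨hx, i, hi1, hi2⟩
    refine (hT i (hlt x hx i hi1.ne)).mono ?_
    rintro y ⟨⟨hy, k, hk1, hk2⟩, hy2⟩
    refine ⟨hy, ?_⟩
    by_contra hcon
    apply hy2
    obtain ⟨h1, h2⟩ := hcmp x hx y hy i hi2 hcon k hk2 hk1.ne
    exact ⟨k, by rw [h1]; exact hk1, h2⟩

/-- An uncountable set of reals has a point with uncountably many points of the set below. -/
lemma exists_below {Z : Set ℝ} (hZ : ¬ Z.Countable) : ∃ x ∈ Z, ¬ {y ∈ Z | y < x}.Countable := by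
  by_contra h
  push Not at h
  apply hZ
  have h1 : Z ⊆ {y ∈ Z | ∀ x ∈ Z, x ≤ y} ∪
      ⋃ q : {q : ℚ // ∃ x ∈ Z, (q : ℝ) < x}, {y ∈ Z | y < (q.1 : ℝ)} := by
    intro y hy
    by_cases hm : ∀ x ∈ Z, x ≤ y
    · exact Or.inl ⟨hy, hm⟩
    · push Not at hm
      obtain ⟨x, hx, hyx⟩ := hm
      obtain ⟨q, hq1, hq2⟩ := exists_rat_btwn hyx
      exact Or.inr (mem_iUnion.mpr ⟨⟨q, x, hx, hq2⟩, hy, hq1⟩)
  refine Countable.mono h1 (Countable.union ?_ (countable_iUnion ?_))
  · refine Set.Subsingleton.countable ?_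
    intro a ha b hb
    exact le_antisymm (hb.2 a ha.1) (ha.2 b hb.1)
  · rintro ⟨q, x, hx, hq⟩
    refine (h x hx).mono ?_
    rintro y ⟨hy1, hy2⟩
    exact ⟨hy1, lt_trans hy2 hq⟩

/-- An uncountable set of reals has a point with uncountably many points of the set above. -/
lemma exists_above {Z : Set ℝ} (hZ : ¬ Z.Countable) : ∃ x ∈ Z, ¬ {y ∈ Z | x < y}.Countable := by
  have hZ' : ¬ (Neg.neg '' Z).Countable := by
    intro h
    apply hZ
    have := h.image Neg.neg
    rwa [image_image, show (fun x : ℝ => - -x) = id from by funext x; simp, image_id] at this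
  obtain ⟨x, ⟨z, hz, rfl⟩, hx⟩ := exists_below hZ'
  refine ⟨z, hz, fun h => hx ?_⟩
  refine (h.image Neg.neg).mono ?_
  rintro y ⟨⟨w, hw, rfl⟩, hy⟩
  exact ⟨w, ⟨hw, by linarith [neg_lt_neg_iff.mp hy]⟩, rfl⟩

/-- There is a function `f` on distances with two values such that every set `X`
of reals on which `f (|x - y|)` is the same for all distinct `x, y` is countable. -/
theorem exists_distance_coloring : ∃ f : ℝ → Bool, ∀ X : Set ℝ,
    (∃ c : Bool, ∀ x ∈ X, ∀ y ∈ X, x ≠ y → f (|x - y|) = c) → X.Countable := by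
  classical
  let b := Module.Basis.ofVectorSpace ℚ ℝ
  obtain ⟨_, hwf⟩ := exists_wellFoundedLT (Module.Basis.ofVectorSpaceIndex ℚ ℝ)
  let r : ℝ → (Module.Basis.ofVectorSpaceIndex ℚ ℝ) →₀ ℚ := fun x => b.repr x
  have hsub : ∀ x y, r (x - y) = r x - r y := fun x y => map_sub b.repr x y
  have hinj : Function.Injective r := b.repr.injective
  refine ⟨fun d => decide (Pos (r d)), fun X hX => ?_⟩
  by_contra hXc
  obtain ⟨c, hc⟩ := hX
  obtain ⟨Z, hZX, hZ, hZ2⟩ := key r hsub hinj X hXc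
  have hneg : ∀ x y, r (x - y) = -r (y - x) := by
    intro x y
    rw [hsub, hsub]
    abel
  have hne : ∀ x y, x ≠ y → r (x - y) ≠ 0 := by
    intro x y hxy h
    rw [hsub, sub_eq_zero] at h
    exact hxy (hinj h)
  -- translate homogeneity
  have hhom : (∀ x ∈ Z, ∀ y ∈ Z, x < y → Pos (r (y - x))) ∨
      (∀ x ∈ Z, ∀ y ∈ Z, x < y → Pos (r (x - y))) := by
    cases c with
    | true =>
      left
      intro x hx y hy hxy
      have h1 := hc y (hZX hy) x (hZX hx) hxy.ne'
      rw [abs_of_pos (sub_pos.mpr hxy)] at h1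
      exact of_decide_eq_true h1
    | false =>
      right
      intro x hx y hy hxy
      have h1 := hc y (hZX hy) x (hZX hx) hxy.ne'
      rw [abs_of_pos (sub_pos.mpr hxy)] at h1
      have h2 : ¬ Pos (r (y - x)) := of_decide_eq_false h1
      rcases pos_or_neg (hne y x hxy.ne') with h3 | h3
      · exact absurd h3 h2
      · rw [hneg]
        exact h3
  have hanti : ∀ x y, Pos (r (x - y)) → ¬ Pos (r (y - x)) := by
    intro x y h
    rw [hneg y x]
    exact not_pos_neg h
  obtain ⟨u, hu, hu2⟩ := exists_below hZ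
  obtain ⟨v, hv, hv2⟩ := exists_above hZ
  rcases hhom with hh | hh <;> rcases hZ2 with hz | hz
  · refine hu2 ((hz u hu).mono ?_)
    rintro y ⟨hy1, hy2⟩
    exact ⟨hy1, hanti _ _ (hh y hy1 u hu hy2)⟩
  · refine hv2 ((hz v hv).mono ?_)
    rintro y ⟨hy1, hy2⟩
    exact ⟨hy1, hanti _ _ (hh v hv y hy1 hy2)⟩
  · refine hv2 ((hz v hv).mono ?_)
    rintro y ⟨hy1, hy2⟩
    exact ⟨hy1, hanti _ _ (hh v hv y hy1 hy2)⟩
  · refine hu2 ((hz u hu).mono ?_)
    rintro y ⟨hy1, hy2⟩
    exact ⟨hy1, hanti _ _ (hh y hy1 u hu hy2)⟩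

/-- **Main result.** There is an isometric two-colouring `χ` of the pairs of reals (the colour of
`{x, y}` depends only on `|x - y|`) such that every homogeneous set of reals is countable. -/
theorem result : ∃ χ : ℝ → ℝ → Fin 2, (∀ x y, χ x y = χ y x) ∧
    (∀ x y z t : ℝ, x ≠ y → z ≠ t → |x - y| = |z - t| → χ x y = χ z t) ∧
    ∀ X : Set ℝ, (∃ c : Fin 2, ∀ x ∈ X, ∀ y ∈ X, x ≠ y → χ x y = c) → X.Countable := by
  obtain ⟨f, hf⟩ := exists_distance_coloring
  refine ⟨fun x y => if f (|x - y|) then 1 else 0, fun x y => ?_, fun x y z t _ _ h => ?_,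
    fun X hX => ?_⟩
  · simp only [abs_sub_comm x y]
  · simp only [h]
  · obtain ⟨c, hc⟩ := hX
    refine hf X ⟨decide (c = 1), fun x hx y hy hxy => ?_⟩
    have h1 := hc x hx y hy hxy
    simp only at h1
    rw [← h1]
    cases h2 : f (|x - y|) <;> simp

end Pool.Agent.Results.MP_a23160_lc.IsometricColoring
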